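import Pool.Agent.D0H8.MM.Pair
import Pool.Agent.D0H8.MM.Mds
import Pool.Agent.D0H8.PQ.Log

set_option autoImplicit false

/-!
# The log minimal model program for pairs on quotients `(A × F) / G`

`X = (A × F) / G`, where `A = V / Λ` is an abelian variety (or a complex torus), `F` is a normal
projective variety of irregularity `q(F) = 0`, and a finite group `G` acts diagonally, in any way: the
action may have fixed points and fixed divisors, and it may permute the classes of `F`. (All finite groups
of automorphisms of `A × F` act diagonally, since `Aut^0(F)` is a linear group.) The hypothesis on `F` is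
that the section ring `R = ⨁ 𝒜 β = ⨁ H⁰(F, O_F(β))` for a free group `W = ℤ^ρ` of `ℚ`-Cartier classes,
stable under `G` and containing a multiple of every invariant class, is finitely generated (`IsDream`). So
`F / G` is a Mori dream space. For instance `F` itself can be a Mori dream space with its Cox ring
(`IsMoriDream`). On the universal covers `X` is the quotient of `V × F` by a group `Γ` of pairs `(a, φ)`.

Let `Δ` be an effective `ℚ`-divisor on `X` and `D = N (K_X + Δ)` an integral Weil divisor; `𝓛` is the
sheaf `O_X(D)`, with class `β = 𝓛.deg` on `F` and Chern form `H = N (H_K + ∑ i, r i • H i)` in the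
direction of `A`. Here `H_K` is the Chern form of `K_X` (that is, of the canonical divisor of the
quotient of `V` by the elements of `Γ` which act trivially on `F`), and `Δ = ∑ i, r i • div (s i)`.

The theorem says that the minimal model conjecture is true for `(X, Δ)`. One of the following holds.

* There is a fibration `X → Z = (A' × F) / G`, given by a surjective linear map `π : V → W'` with nonzero
  kernel, `A' = W' / Λ'`, such that `H` is negative definite on `ker π`: so `-(K_X + Δ)` is ample
  over `Z`. (This is the case in which `H` is not semidefinite.)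
* There is a finite sequence of divisorial contractions and flips for `K_X + Δ` from `X` to a model
  `X_m = (A × F_m) / G` with a contraction `X_m → Z`, `dim Z < dim X_m`, such that
  `-(K + Δ)` is ample over `Z`; moreover the relative Picard number is at most one.
* There is a finite sequence of divisorial contractions and flips for `K_X + Δ` from `X` to a model
  `X_m = (A × F_m) / G` such that `K + Δ` is nef, since `H` is semidefinite and the class `β` is
  semiample on `F_m`, and `K + Δ` is even semiample on `X_m`: this is a good minimal model. Here `Δ` has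
  rational coefficients and `D ~_ℚ N (K_X + Δ)` (`IsAdjoint`). If `D` is only numerically equivalent to
  `N (K_X + Δ)`, and `Δ` has real coefficients, the model has the same properties, and `D` is semiample if
  `H^1(A, O_A)^G = H^1(X, O_X) = 0` or if some positive multiple of `D` is effective.

No condition on the singularities of `(X, Δ)` is needed; if `(X, Δ)` is log canonical, then all the
pairs which occur are log canonical, since all the steps are negative for `K + Δ`.

The models are given by sets `U = SS 𝒜 m` of semistable points of `Spec R`: the variety `F_m` is the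
quotient of `U` by the torus, and `IsModel` says that `X_m` is `ℚ`-factorial with ample class `m`.
A step (`Step`) from `X_m` to `X_m'` consists of a contraction `f : X_m → Z = X_c` (`IsContraction`)
such that `-D` is ample over `Z` and the relative Picard number is at most one, and of a morphism
`X_m' → Z` such that `D` is ample over `Z` (`IsCompletion`), where all divisors on `X_m'` are divisors on
`X_m`. Since a positive combination of `D` and of the pullback of an ample class of `Z` is the big class
`m'`, the morphism `f` is birational. If `f` contracts a divisor, then `Z` is `ℚ`-factorial, and `X_m'`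
is `Z`: otherwise the exceptional divisor of `f` would be a divisor on `X_m'`, against the negativity
lemma. If `f` is small, then `X_m' → Z` is small, and it is the flip of `f`. In `MoriFibre` no combination
`a D + b c`, `a > 0`, is effective, so that `X_m → Z` is not birational.

The proof runs the program with scaling of a general invariant ample class near a multiple of `u`.
For the semiampleness: the restriction of `D` to the slices `V / Γ₀` (`Γ₀ = vert 𝒜 Γ`) is
`N (K_{V / Γ₀} + Δ)`, so a power of it has a meromorphic section with poles only on mirrors, and the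
character of `D` on the lattice vectors in the kernel of `H` is a root of unity, by the starting files on
pairs on torus quotients (`root_of_mero`).
In the first case the kernel of `π` is the eigenspace of `H` for its smallest eigenvalue, relative to an
invariant metric of `V`; it is spanned by lattice vectors, because `H_K` vanishes on the vectors which are
parallel to all mirrors (starting files).

`Cl`, `Semistable`, `SemiampleF`, `IsMoriDream`, `Grp`, `base`, `vert`, `Inv`, `IsQuotient`, `Sheaf`,
`IsSection`, `IsPowSection`, `IsSemiample`, `IsChern`, `EffDiv` and `IsCanonicalForm` are defined in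
`Pool.Agent.X324.CF.Defs`; `SS`, `IsDream`, `IsModel`, `IsContraction`, `IsCompletion`, `Step` and
`MoriFibre` in `Pool.Agent.D0H8.MM.Defs`; `Effective` in `Pool.Agent.D0H8.PQ.Defs`, `IsAdjoint` in
`Pool.Agent.D0H8.PQ.Log`; `HOneZero` and `IsFibration` in `Pool.Agent.TH735.AQ.Defs`, `IsRamification` in
`Pool.Agent.TH735.AQ.MirDefs`; `IsNefForm` in `Pool.Agent.W594.SYZ.TQDefs`.
-/

namespace Pool.Agent.Results.MP_a27c81_ag.ProductQuotients

open Pool.Agent.W594.SYZ2 Pool.Agent.TH735.AQ Pool.Agent.X324.CF Pool.Agent.D0H8.PQ
open Pool.Agent.D0H8.MM

/-- Let `F` be a variety whose section ring `R` for a group `ℤ^ρ` of classes is finitely generated, with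
ample class `u`; for instance a Mori dream space. Let `X = (V × F) / Γ` and let `Δ` be an effective divisor
on `X`. Let `𝓛` be the sheaf of `D = N (K_X + Δ)`: its Chern form is `N` times the sum of the Chern forms of
`K_X` and of `Δ`. Then there is a fibration of `X` given by a linear map, with nonzero kernel on which the
Chern form is negative definite, or a finite sequence of divisorial contractions and flips for `D` leads
from `X` to a Mori fibre space for `D` or to a model on which `D` is nef. If `D` is `ℚ`-linearly
equivalent to `N (K_X + Δ)`, this is a good minimal model: `D` is semiample. The same is true if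
`H^1(X, O_X) = 0` or if some positive multiple of `D` is effective. -/
theorem result {V R : Type*} [NormedAddCommGroup V] [NormedSpace ℂ V] [FiniteDimensional ℂ V]
    [CommRing R] [IsDomain R] [Algebra ℂ R] {ρ n : ℕ}
    (𝒜 : Cl ρ → Submodule ℂ R) [GradedAlgebra 𝒜] (x : Fin n → R) (w : Fin n → Cl ρ) (u : Cl ρ)
    (Γ : Grp V R) (hX : IsQuotient 𝒜 u Γ) (HK : V → V → ℂ) (hK : IsCanonicalForm (vert 𝒜 Γ) HK)
    {ι : Type*} [Fintype ι] (Δ : EffDiv 𝒜 Γ ι)
    (N : ℕ) (𝓛 : Sheaf 𝒜 Γ) (H : V → V → ℂ) (hL : 𝓛.IsChern H)
    (hH : ∀ v w, H v w = N * (HK v w + ∑ i, (Δ.r i : ℂ) * Δ.H i v w)) :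
    -- Mori dream spaces satisfy the hypothesis
    (IsMoriDream 𝒜 x w u → IsDream 𝒜 x w u) ∧
    (IsDream 𝒜 x w u →
      -- a fibration of `X`
      (∃ (k : ℕ) (Γ' : Subgroup ((Fin k → ℂ) ≃ᵃ[ℂ] (Fin k → ℂ))) (π : V →ₗ[ℂ] (Fin k → ℂ)),
        IsFibration (base Γ) Γ' π ∧ (∃ v, v ≠ 0 ∧ π v = 0) ∧
          ∀ v, v ≠ 0 → π v = 0 → (H v v).re < 0) ∨
      -- a finite sequence of steps
      ∃ U, Relation.ReflTransGen (Step 𝒜 Γ 𝓛.deg) (SS 𝒜 u) U ∧
        -- to a Mori fibre space
        (MoriFibre 𝒜 Γ 𝓛.deg U ∨
        -- or to a minimal model
          ∃ m, U = SS 𝒜 m ∧ IsModel 𝒜 Γ m ∧ IsNefForm H ∧ SemiampleF 𝒜 m 𝓛.deg ∧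
            (IsAdjoint 𝒜 Γ Δ N 𝓛 ∨ HOneZero (base Γ) ∨ Effective 𝓛 → 𝓛.IsSemiample m))) := by
  refine ⟨dream_of_mds, fun hF => ?_⟩
  by_cases hn : IsNefForm H
  · right
    obtain ⟨U, hU, hfin⟩ := mmp hF hX.inv 𝓛.inv
    refine ⟨U, hU, ?_⟩
    rcases hfin with h | ⟨m, hm, hM, hs⟩
    · exact Or.inl h
    · refine Or.inr ⟨m, hm, hM, hn, hs, fun h => ?_⟩
      rcases h with h | h
      · exact adj_semiample (fun _ _ _ h0 => exists_point (finType hF) h0) (quot_model hX hM.inv)
          hs hL hn h
      · exact good hF hX hM hs hL hn h
  · exact Or.inl (pair_fibration hX hK Δ hL hH hn)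

end Pool.Agent.Results.MP_a27c81_ag.ProductQuotients
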